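import Mathlib

/-!
# The cyclopolytope `N_105` is not reflexive

`N_k` is the convex hull of the coefficient vectors of `t^r mod Φ_k(t)`, `0 ≤ r < k`.  Points `y` of the
dual space correspond to functions `g` on `ℤ/k` with `∑_j g(r + j k/p) = 0` for all primes `p ∣ k`, via
`g(r) = ⟨a^(r), y⟩`, and the polar polytope is given by `g ≤ 1`.  For `k = 105 = 3·5·7` the
function `g = G2/2` below is half integral, not integral, and is determined by its coordinates with
`g = 1` together with the linear relations: it is a vertex of the polar polytope outside `ℤ^48`.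
-/

namespace Pool.Agent.Results.MP_c80912_nt.NotReflexive105

open Finset Polynomial

/-- The coefficient vector `a^(r)` of `t^r` modulo the cyclotomic polynomial `Φ_k`. -/
noncomputable def coeffVec (k r : ℕ) : Fin (Nat.totient k) → ℝ :=
  fun s => (((X ^ r : ℤ[X]) %ₘ cyclotomic k ℤ).coeff (s : ℕ) : ℝ)

/-- The cyclopolytope `N_k`: the convex hull of the vectors `a^(0), …, a^(k-1)`. -/
noncomputable def cyclopolytope (k : ℕ) : Set (Fin (Nat.totient k) → ℝ) :=
  convexHull ℝ {v | ∃ r : ℕ, r < k ∧ v = coeffVec k r}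

/-- The polar `P^* = {y : ⟨x, y⟩ ≤ 1 for all x ∈ P}`. -/
def polar {d : ℕ} (P : Set (Fin d → ℝ)) : Set (Fin d → ℝ) :=
  {y | ∀ x ∈ P, ∑ i, x i * y i ≤ 1}

/-- `P ⊆ ℝ^d` is reflexive: it is `d`-dimensional, the origin is an interior point, and all vertices
(extreme points) of the polar have integer coordinates.  (Used for the lattice polytopes `N_k`.) -/
def IsReflexive {d : ℕ} (P : Set (Fin d → ℝ)) : Prop :=
  affineSpan ℝ P = ⊤ ∧ (0 : Fin d → ℝ) ∈ interior P ∧
    ∀ y ∈ Set.extremePoints ℝ (polar P), ∀ i, ∃ n : ℤ, y i = (n : ℝ)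

/-! ### The linear functional attached to a point of the dual space -/

/-- `⟨p mod Φ_k, y⟩`. -/
noncomputable def L (k : ℕ) (y : Fin (Nat.totient k) → ℝ) (p : ℤ[X]) : ℝ :=
  ∑ s : Fin (Nat.totient k), ((p %ₘ cyclotomic k ℤ).coeff (s : ℕ) : ℝ) * y s

lemma L_add (k : ℕ) (y : Fin (Nat.totient k) → ℝ) (p q : ℤ[X]) :
    L k y (p + q) = L k y p + L k y q := by
  simp only [L, add_modByMonic, coeff_add, Int.cast_add, add_mul, sum_add_distrib]

lemma L_eq_zero (k : ℕ) (y : Fin (Nat.totient k) → ℝ) (p : ℤ[X]) (h : cyclotomic k ℤ ∣ p) :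
    L k y p = 0 := by
  have : p %ₘ cyclotomic k ℤ = 0 := (modByMonic_eq_zero_iff_dvd (cyclotomic.monic k ℤ)).mpr h
  simp [L, this]

lemma L_X_pow (k : ℕ) (y : Fin (Nat.totient k) → ℝ) (r : ℕ) :
    L k y (X ^ r) = ∑ i, coeffVec k r i * y i := rfl

lemma L_X_pow_lt (y : Fin (Nat.totient 105) → ℝ) (s : Fin (Nat.totient 105)) :
    L 105 y (X ^ (s : ℕ)) = y s := by
  have hdeg : (X ^ (s : ℕ) : ℤ[X]).degree < (cyclotomic 105 ℤ).degree := by
    rw [degree_X_pow, degree_cyclotomic]
    exact_mod_cast s.isLt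
  rw [L, (modByMonic_eq_self_iff (cyclotomic.monic 105 ℤ)).mpr hdeg, sum_eq_single s]
  · simp
  · intro t _ hts
    rw [coeff_X_pow, if_neg]
    · simp
    · intro h
      exact hts (Fin.ext h)
  · intro h
    exact absurd (mem_univ _) h

/-- Divisibility of the line sums. -/
lemma dvd_line (k m n : ℕ) (hm : m ∈ Nat.properDivisors k) (hmn : m * n = k) :
    cyclotomic k ℤ ∣ ∑ j ∈ range n, (X : ℤ[X]) ^ (m * j) := by
  have h := X_pow_sub_one_mul_cyclotomic_dvd_X_pow_sub_one_of_dvd ℤ hm
  have h2 : (X : ℤ[X]) ^ k - 1 = (X ^ m - 1) * ∑ j ∈ range n, (X : ℤ[X]) ^ (m * j) := by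
    have := mul_geom_sum ((X : ℤ[X]) ^ m) n
    rw [← hmn, pow_mul]
    simp only [pow_mul]
    exact this.symm
  rw [h2] at h
  have hne : (X ^ m - 1 : ℤ[X]) ≠ 0 := by
    have hm0 : 0 < m := Nat.pos_of_mem_properDivisors hm
    intro h0
    have := congrArg (fun p : ℤ[X] => p.coeff m) h0
    simp [coeff_one, hm0.ne'] at this
  exact (mul_dvd_mul_iff_left hne).mp h

lemma L_line (y : Fin (Nat.totient 105) → ℝ) (m n : ℕ) (hm : m ∈ Nat.properDivisors 105)
    (hmn : m * n = 105) (r : ℕ) : ∑ j ∈ range n, L 105 y (X ^ (r + m * j)) = 0 := by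
  have h1 : ∀ s : Finset ℕ, L 105 y (∑ j ∈ s, X ^ (r + m * j)) =
      ∑ j ∈ s, L 105 y (X ^ (r + m * j)) := by
    intro s
    induction s using Finset.induction_on with
    | empty => simp [L]
    | insert a s ha ih => rw [sum_insert ha, sum_insert ha, L_add, ih]
  rw [← h1]
  apply L_eq_zero
  have : (∑ j ∈ range n, (X : ℤ[X]) ^ (r + m * j)) = X ^ r * ∑ j ∈ range n, X ^ (m * j) := by
    rw [mul_sum]
    apply sum_congr rfl
    intro j _
    rw [pow_add]
  rw [this]
  exact Dvd.dvd.mul_left (dvd_line 105 m n hm hmn) _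

/-! ### The explicit vertex -/

/-- Twice the values of the function `g`. -/
def G2 (r : ℕ) : ℤ :=
  ([-4, 2, -3, 2, -4, 2, 0, 2, 2, -4, 0, -4, 2, 2, -2, 2, -4, -3, -3, 2, 2, 2, -4, 2, 2, -1,
    -4, -4, -4, -2, 2, 2, 2, 2, 2, 2, -4, 2, -3, 2, 0, 2, 0, 0, 2, -2, 2, 2, 0, 2, -4, 2, 1, 1,
    -4, -4, 0, 2, -1, 2, 2, 2, 2, 2, 0, -3, -4, 1, -2, 2, 2, 2, 1, 1, 2, -2, -2, -2, -2, 2, 2,
    2, -4, -2, 0, 2, 2, 2, 2, 2, 2, -2, 2, -1, -4, -1, 2, 2, 2, 2, 1, 2, -3, 0, -4] : List ℤ).getD r 0

/-- The coefficients of `Φ_105`. -/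
def phi : List (ℤ × ℕ) :=
  [(1, 48), (1, 47), (1, 46), (-1, 43), (-1, 42), (-2, 41), (-1, 40), (-1, 39), (1, 36), (1,
    35), (1, 34), (1, 33), (1, 32), (1, 31), (-1, 28), (-1, 26), (-1, 24), (-1, 22), (-1, 20),
    (1, 17), (1, 16), (1, 15), (1, 14), (1, 13), (1, 12), (-1, 9), (-1, 8), (-2, 7), (-1, 6),
    (-1, 5), (1, 2), (1, 1), (1, 0)]

/-- The function `g` on the natural numbers, periodic modulo `105`. -/
noncomputable def g (r : ℕ) : ℝ := (G2 (r % 105) : ℝ) / 2

lemma phi_G2 : ∀ r : Fin 105, ((phi.map (fun t => t.1 * G2 (((r : ℕ) + t.2) % 105))).sum) = 0 := by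
  decide +kernel

lemma phi_g (r : ℕ) : (phi.map (fun t => (t.1 : ℝ) * g (r + t.2))).sum = 0 := by
  have h := phi_G2 ⟨r % 105, Nat.mod_lt _ (by norm_num)⟩
  have h2 : (phi.map (fun t => (t.1 : ℝ) * g (r + t.2))).sum =
      (((phi.map (fun t => t.1 * G2 (((r % 105 : ℕ) + t.2) % 105))).sum : ℤ) : ℝ) / 2 := by
    have hgen : ∀ l : List (ℤ × ℕ), (l.map (fun t => (t.1 : ℝ) * g (r + t.2))).sum =
        (((l.map (fun t => t.1 * G2 (((r % 105 : ℕ) + t.2) % 105))).sum : ℤ) : ℝ) / 2 := by
      intro l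
      induction l with
      | nil => simp
      | cons a l ih =>
        rw [List.map_cons, List.sum_cons, ih, List.map_cons, List.sum_cons, g,
          Nat.mod_add_mod]
        push_cast
        ring
    exact hgen phi
  rw [h2]
  simp only at h
  rw [h]
  simp

/-! ### The explicit form of `Φ_105` -/

lemma c5 : cyclotomic 5 ℤ = X ^ 4 + X ^ 3 + X ^ 2 + X + 1 := by
  have : Fact (Nat.Prime 5) := ⟨by norm_num⟩
  rw [cyclotomic_prime]
  simp only [sum_range_succ, range_zero, sum_empty]
  ring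

lemma c15 : cyclotomic 15 ℤ = X ^ 8 - X ^ 7 + X ^ 5 - X ^ 4 + X ^ 3 - X + 1 := by
  have h := cyclotomic_expand_eq_cyclotomic_mul (p := 3) (n := 5) (by norm_num) (by norm_num) ℤ
  rw [show 5 * 3 = 15 by norm_num] at h
  have hne : cyclotomic 5 ℤ ≠ 0 := cyclotomic_ne_zero 5 ℤ
  apply mul_right_cancel₀ hne
  rw [← h, c5]
  simp only [map_add, map_pow, expand_X, map_one]
  ring

lemma c105 : cyclotomic 105 ℤ = X ^ 48 + X ^ 47 + X ^ 46 - X ^ 43 - X ^ 42 - 2 * X ^ 41 - X ^ 40
    - X ^ 39 + X ^ 36 + X ^ 35 + X ^ 34 + X ^ 33 + X ^ 32 + X ^ 31 - X ^ 28 - X ^ 26 - X ^ 24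
    - X ^ 22 - X ^ 20 + X ^ 17 + X ^ 16 + X ^ 15 + X ^ 14 + X ^ 13 + X ^ 12 - X ^ 9 - X ^ 8
    - 2 * X ^ 7 - X ^ 6 - X ^ 5 + X ^ 2 + X + 1 := by
  have h := cyclotomic_expand_eq_cyclotomic_mul (p := 7) (n := 15) (by norm_num) (by norm_num) ℤ
  rw [show 15 * 7 = 105 by norm_num] at h
  have hne : cyclotomic 15 ℤ ≠ 0 := cyclotomic_ne_zero 15 ℤ
  apply mul_right_cancel₀ hne
  rw [← h, c15]
  simp only [map_add, map_sub, map_pow, expand_X, map_one]
  ring

lemma c105_phi : cyclotomic 105 ℤ = (phi.map (fun t => C t.1 * X ^ t.2)).sum := by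
  rw [c105]
  simp only [phi, List.map_cons, List.map_nil, List.sum_cons, List.sum_nil, map_neg, map_one,
    pow_zero, pow_one]
  have h2 : (C (2 : ℤ) : ℤ[X]) = 2 := rfl
  rw [h2]
  ring

/-- The functional on `ℤ[X]` with `X^n ↦ g n`. -/
noncomputable def Gf : ℤ[X] →ₗ[ℤ] ℝ := Polynomial.lsum (fun n => LinearMap.toSpanSingleton ℤ ℝ (g n))

lemma Gf_monomial (n : ℕ) (c : ℤ) : Gf (monomial n c) = (c : ℝ) * g n := by
  rw [Gf, Polynomial.lsum_apply, sum_monomial_index]
  · simp
  · simp

lemma Gf_mul_monomial (n : ℕ) (c : ℤ) (l : List (ℤ × ℕ)) :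
    Gf ((l.map (fun t => C t.1 * X ^ t.2)).sum * monomial n c) =
      (c : ℝ) * (l.map (fun t => (t.1 : ℝ) * g (n + t.2))).sum := by
  induction l with
  | nil => simp
  | cons a l ih =>
    rw [List.map_cons, List.sum_cons, add_mul, map_add, ih, List.map_cons, List.sum_cons,
      C_mul_X_pow_eq_monomial, monomial_mul_monomial, Gf_monomial, add_comm a.2 n]
    push_cast
    ring

lemma Gf_cyc (p : ℤ[X]) : Gf (cyclotomic 105 ℤ * p) = 0 := by
  induction p using Polynomial.induction_on' with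
  | add p q hp hq => rw [mul_add, map_add, hp, hq, add_zero]
  | monomial n c => rw [c105_phi, Gf_mul_monomial, phi_g, mul_zero]

/-- The vertex. -/
noncomputable def yv : Fin (Nat.totient 105) → ℝ := fun s => g s

lemma L_yv (p : ℤ[X]) : L 105 yv p = Gf p := by
  have h1 : Gf p = Gf (p %ₘ cyclotomic 105 ℤ) := by
    conv_lhs => rw [← modByMonic_add_div p (cyclotomic 105 ℤ)]
    rw [map_add, Gf_cyc, add_zero]
  rw [h1, L]
  have hdeg : (p %ₘ cyclotomic 105 ℤ).natDegree < Nat.totient 105 := by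
    have h2 := natDegree_modByMonic_lt p (cyclotomic.monic 105 ℤ) (by
      intro h
      have h3 := congrArg natDegree h
      rw [natDegree_cyclotomic, natDegree_one] at h3
      exact absurd h3 (by decide))
    rwa [natDegree_cyclotomic] at h2
  rw [Gf, Polynomial.lsum_apply, Polynomial.sum_over_range' _ (by simp) _ hdeg,
    ← Fin.sum_univ_eq_sum_range (fun i => (LinearMap.toSpanSingleton ℤ ℝ (g i))
      ((p %ₘ cyclotomic 105 ℤ).coeff i)) (Nat.totient 105)]
  apply sum_congr rfl
  intro s _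
  simp [yv]

lemma L_yv_pow (r : ℕ) : L 105 yv (X ^ r) = g r := by
  rw [L_yv]
  have : (X ^ r : ℤ[X]) = monomial r 1 := by rw [X_pow_eq_monomial]
  rw [this, Gf_monomial]
  simp

/-! ### Uniqueness -/

lemma unique (d : ℕ → ℝ) (hz : ∀ r : ℕ, r < 105 → G2 r = 2 → d r = 0)
    (h3 : ∀ r, d r + d (r + 35) + d (r + 70) = 0)
    (h5 : ∀ r, d r + d (r + 21) + d (r + 42) + d (r + 63) + d (r + 84) = 0)
    (h7 : ∀ r, d r + d (r + 15) + d (r + 30) + d (r + 45) + d (r + 60) + d (r + 75)
      + d (r + 90) = 0) : ∀ r : ℕ, r < 105 → d r = 0 := by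
  have z1 : d 1 = 0 := hz 1 (by decide) (by decide)
  have z3 : d 3 = 0 := hz 3 (by decide) (by decide)
  have z5 : d 5 = 0 := hz 5 (by decide) (by decide)
  have z7 : d 7 = 0 := hz 7 (by decide) (by decide)
  have z8 : d 8 = 0 := hz 8 (by decide) (by decide)
  have z12 : d 12 = 0 := hz 12 (by decide) (by decide)
  have z13 : d 13 = 0 := hz 13 (by decide) (by decide)
  have z15 : d 15 = 0 := hz 15 (by decide) (by decide)
  have z19 : d 19 = 0 := hz 19 (by decide) (by decide)
  have z20 : d 20 = 0 := hz 20 (by decide) (by decide)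
  have z21 : d 21 = 0 := hz 21 (by decide) (by decide)
  have z23 : d 23 = 0 := hz 23 (by decide) (by decide)
  have z24 : d 24 = 0 := hz 24 (by decide) (by decide)
  have z30 : d 30 = 0 := hz 30 (by decide) (by decide)
  have z31 : d 31 = 0 := hz 31 (by decide) (by decide)
  have z32 : d 32 = 0 := hz 32 (by decide) (by decide)
  have z33 : d 33 = 0 := hz 33 (by decide) (by decide)
  have z34 : d 34 = 0 := hz 34 (by decide) (by decide)
  have z35 : d 35 = 0 := hz 35 (by decide) (by decide)
  have z37 : d 37 = 0 := hz 37 (by decide) (by decide)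
  have z39 : d 39 = 0 := hz 39 (by decide) (by decide)
  have z41 : d 41 = 0 := hz 41 (by decide) (by decide)
  have z44 : d 44 = 0 := hz 44 (by decide) (by decide)
  have z46 : d 46 = 0 := hz 46 (by decide) (by decide)
  have z47 : d 47 = 0 := hz 47 (by decide) (by decide)
  have z49 : d 49 = 0 := hz 49 (by decide) (by decide)
  have z51 : d 51 = 0 := hz 51 (by decide) (by decide)
  have z57 : d 57 = 0 := hz 57 (by decide) (by decide)
  have z59 : d 59 = 0 := hz 59 (by decide) (by decide)
  have z60 : d 60 = 0 := hz 60 (by decide) (by decide)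
  have z61 : d 61 = 0 := hz 61 (by decide) (by decide)
  have z62 : d 62 = 0 := hz 62 (by decide) (by decide)
  have z63 : d 63 = 0 := hz 63 (by decide) (by decide)
  have z69 : d 69 = 0 := hz 69 (by decide) (by decide)
  have z70 : d 70 = 0 := hz 70 (by decide) (by decide)
  have z71 : d 71 = 0 := hz 71 (by decide) (by decide)
  have z74 : d 74 = 0 := hz 74 (by decide) (by decide)
  have z79 : d 79 = 0 := hz 79 (by decide) (by decide)
  have z80 : d 80 = 0 := hz 80 (by decide) (by decide)
  have z81 : d 81 = 0 := hz 81 (by decide) (by decide)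
  have z85 : d 85 = 0 := hz 85 (by decide) (by decide)
  have z86 : d 86 = 0 := hz 86 (by decide) (by decide)
  have z87 : d 87 = 0 := hz 87 (by decide) (by decide)
  have z88 : d 88 = 0 := hz 88 (by decide) (by decide)
  have z89 : d 89 = 0 := hz 89 (by decide) (by decide)
  have z90 : d 90 = 0 := hz 90 (by decide) (by decide)
  have z92 : d 92 = 0 := hz 92 (by decide) (by decide)
  have z96 : d 96 = 0 := hz 96 (by decide) (by decide)
  have z97 : d 97 = 0 := hz 97 (by decide) (by decide)
  have z98 : d 98 = 0 := hz 98 (by decide) (by decide)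
  have z99 : d 99 = 0 := hz 99 (by decide) (by decide)
  have z101 : d 101 = 0 := hz 101 (by decide) (by decide)
  have z0 : d 0 = 0 := by
    linarith [(show d 0 + d 35 + d 70 = 0 from h3 0),
      z35, z70]
  have z36 : d 36 = 0 := by
    linarith [(show d 1 + d 36 + d 71 = 0 from h3 1),
      z1, z71]
  have z4 : d 4 = 0 := by
    linarith [(show d 4 + d 39 + d 74 = 0 from h3 4),
      z39, z74]
  have z9 : d 9 = 0 := by
    linarith [(show d 9 + d 44 + d 79 = 0 from h3 9),
      z44, z79]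
  have z11 : d 11 = 0 := by
    linarith [(show d 11 + d 46 + d 81 = 0 from h3 11),
      z46, z81]
  have z82 : d 82 = 0 := by
    linarith [(show d 12 + d 47 + d 82 = 0 from h3 12),
      z12, z47]
  have z50 : d 50 = 0 := by
    linarith [(show d 15 + d 50 + d 85 = 0 from h3 15),
      z15, z85]
  have z16 : d 16 = 0 := by
    linarith [(show d 16 + d 51 + d 86 = 0 from h3 16),
      z51, z86]
  have z54 : d 54 = 0 := by
    linarith [(show d 19 + d 54 + d 89 = 0 from h3 19),
      z19, z89]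
  have z55 : d 55 = 0 := by
    linarith [(show d 20 + d 55 + d 90 = 0 from h3 20),
      z20, z90]
  have z22 : d 22 = 0 := by
    linarith [(show d 22 + d 57 + d 92 = 0 from h3 22),
      z57, z92]
  have z94 : d 94 = 0 := by
    linarith [(show d 24 + d 59 + d 94 = 0 from h3 24),
      z24, z59]
  have z26 : d 26 = 0 := by
    linarith [(show d 26 + d 61 + d 96 = 0 from h3 26),
      z61, z96]
  have z27 : d 27 = 0 := by
    linarith [(show d 27 + d 62 + d 97 = 0 from h3 27),
      z62, z97]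
  have z28 : d 28 = 0 := by
    linarith [(show d 28 + d 63 + d 98 = 0 from h3 28),
      z63, z98]
  have z66 : d 66 = 0 := by
    linarith [(show d 31 + d 66 + d 101 = 0 from h3 31),
      z31, z101]
  have z104 : d 104 = 0 := by
    linarith [(show d 34 + d 69 + d 104 = 0 from h3 34),
      z34, z69]
  have z45 : d 45 = 0 := by
    linarith [(show d 3 + d 24 + d 45 + d 66 + d 87 = 0 from h5 3),
      z3, z24, z66, z87]
  have z68 : d 68 = 0 := by
    linarith [(show d 5 + d 26 + d 47 + d 68 + d 89 = 0 from h5 5),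
      z5, z26, z47, z89]
  have z91 : d 91 = 0 := by
    linarith [(show d 7 + d 28 + d 49 + d 70 + d 91 = 0 from h5 7),
      z7, z28, z49, z70]
  have z29 : d 29 = 0 := by
    linarith [(show d 8 + d 29 + d 50 + d 71 + d 92 = 0 from h5 8),
      z8, z50, z71, z92]
  have z75 : d 75 = 0 := by
    linarith [(show d 12 + d 33 + d 54 + d 75 + d 96 = 0 from h5 12),
      z12, z33, z54, z96]
  have z76 : d 76 = 0 := by
    linarith [(show d 13 + d 34 + d 55 + d 76 + d 97 = 0 from h5 13),
      z13, z34, z55, z97]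
  have z78 : d 78 = 0 := by
    linarith [(show d 15 + d 36 + d 57 + d 78 + d 99 = 0 from h5 15),
      z15, z36, z57, z99]
  have z83 : d 83 = 0 := by
    linarith [(show d 20 + d 41 + d 62 + d 83 + d 104 = 0 from h5 20),
      z20, z41, z62, z104]
  have z64 : d 64 = 0 := by
    linarith [(show d 4 + d 19 + d 34 + d 49 + d 64 + d 79 + d 94 = 0 from h7 4),
      z4, z19, z34, z49, z79, z94]
  have z6 : d 6 = 0 := by
    linarith [(show d 6 + d 21 + d 36 + d 51 + d 66 + d 81 + d 96 = 0 from h7 6),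
      z21, z36, z51, z66, z81, z96]
  have z84 : d 84 = 0 := by
    linarith [(show d 9 + d 24 + d 39 + d 54 + d 69 + d 84 + d 99 = 0 from h7 9),
      z9, z24, z39, z54, z69, z99]
  have z56 : d 56 = 0 := by
    linarith [(show d 11 + d 26 + d 41 + d 56 + d 71 + d 86 + d 101 = 0 from h7 11),
      z11, z26, z41, z71, z86, z101]
  have z14 : d 14 = 0 := by
    linarith [(show d 14 + d 29 + d 44 + d 59 + d 74 + d 89 + d 104 = 0 from h7 14),
      z29, z44, z59, z74, z89, z104]
  have z40 : d 40 = 0 := by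
    linarith [(show d 5 + d 40 + d 75 = 0 from h3 5),
      z5, z75]
  have z43 : d 43 = 0 := by
    linarith [(show d 8 + d 43 + d 78 = 0 from h3 8),
      z8, z78]
  have z10 : d 10 = 0 := by
    linarith [(show d 10 + d 45 + d 80 = 0 from h3 10),
      z45, z80]
  have z48 : d 48 = 0 := by
    linarith [(show d 13 + d 48 + d 83 = 0 from h3 13),
      z13, z83]
  have z103 : d 103 = 0 := by
    linarith [(show d 33 + d 68 + d 103 = 0 from h3 33),
      z33, z68]
  have z42 : d 42 = 0 := by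
    linarith [(show d 0 + d 21 + d 42 + d 63 + d 84 = 0 from h5 0),
      z0, z21, z63, z84]
  have z77 : d 77 = 0 := by
    linarith [(show d 14 + d 35 + d 56 + d 77 + d 98 = 0 from h5 14),
      z14, z35, z56, z98]
  have e2_72 : d 2 + d 72 = 0 := by
    linarith [(show d 2 + d 37 + d 72 = 0 from h3 2),
      z37]
  have e2_65 : d 2 + d 65 = 0 := by
    linarith [(show d 2 + d 23 + d 44 + d 65 + d 86 = 0 from h5 2),
      z23, z44, z86]
  have e2_17 : d 2 + d 17 = 0 := by
    linarith [(show d 2 + d 17 + d 32 + d 47 + d 62 + d 77 + d 92 = 0 from h7 2),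
      z32, z47, z62, z77, z92]
  have e17_52 : d 17 + d 52 = 0 := by
    linarith [(show d 17 + d 52 + d 87 = 0 from h3 17),
      z87]
  have e17_38 : d 17 + d 38 = 0 := by
    linarith [(show d 17 + d 38 + d 59 + d 80 + d 101 = 0 from h5 17),
      z59, z80, z101]
  have e18_53 : d 18 + d 53 = 0 := by
    linarith [(show d 18 + d 53 + d 88 = 0 from h3 18),
      z88]
  have e18_102 : d 18 + d 102 = 0 := by
    linarith [(show d 18 + d 39 + d 60 + d 81 + d 102 = 0 from h5 18),
      z39, z60, z81]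
  have e18_93 : d 18 + d 93 = 0 := by
    linarith [(show d 3 + d 18 + d 33 + d 48 + d 63 + d 78 + d 93 = 0 from h7 3),
      z3, z33, z48, z63, z78]
  have e25_95 : d 25 + d 95 = 0 := by
    linarith [(show d 25 + d 60 + d 95 = 0 from h3 25),
      z60]
  have e25_67 : d 25 + d 67 = 0 := by
    linarith [(show d 4 + d 25 + d 46 + d 67 + d 88 = 0 from h5 4),
      z4, z46, z88]
  have e25_100 : d 25 + d 100 = 0 := by
    linarith [(show d 10 + d 25 + d 40 + d 55 + d 70 + d 85 + d 100 = 0 from h7 10),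
      z10, z40, z55, z70, z85]
  have e38_73 : d 38 + d 73 = 0 := by
    linarith [(show d 3 + d 38 + d 73 = 0 from h3 3),
      z3]
  have e38_53 : d 38 + d 53 = 0 := by
    linarith [(show d 8 + d 23 + d 38 + d 53 + d 68 + d 83 + d 98 = 0 from h7 8),
      z8, z23, z68, z83, z98]
  have e52_73 : d 52 + d 73 = 0 := by
    linarith [(show d 10 + d 31 + d 52 + d 73 + d 94 = 0 from h5 10),
      z10, z31, z94]
  have e52_67 : d 52 + d 67 = 0 := by
    linarith [(show d 7 + d 22 + d 37 + d 52 + d 67 + d 82 + d 97 = 0 from h7 7),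
      z7, z22, z37, z82, z97]
  have e53_95 : d 53 + d 95 = 0 := by
    linarith [(show d 11 + d 32 + d 53 + d 74 + d 95 = 0 from h5 11),
      z11, z32, z74]
  have e58_93 : d 58 + d 93 = 0 := by
    linarith [(show d 23 + d 58 + d 93 = 0 from h3 23),
      z23]
  have e58_100 : d 58 + d 100 = 0 := by
    linarith [(show d 16 + d 37 + d 58 + d 79 + d 100 = 0 from h5 16),
      z16, z37, z79]
  have e58_73 : d 58 + d 73 = 0 := by
    linarith [(show d 13 + d 28 + d 43 + d 58 + d 73 + d 88 + d 103 = 0 from h7 13),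
      z13, z28, z43, z88, z103]
  have e65_100 : d 65 + d 100 = 0 := by
    linarith [(show d 30 + d 65 + d 100 = 0 from h3 30),
      z30]
  have e65_95 : d 65 + d 95 = 0 := by
    linarith [(show d 5 + d 20 + d 35 + d 50 + d 65 + d 80 + d 95 = 0 from h7 5),
      z5, z20, z35, z50, z80]
  have e67_102 : d 67 + d 102 = 0 := by
    linarith [(show d 32 + d 67 + d 102 = 0 from h3 32),
      z32]
  have e72_93 : d 72 + d 93 = 0 := by
    linarith [(show d 9 + d 30 + d 51 + d 72 + d 93 = 0 from h5 9),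
      z9, z30, z51]
  have e72_102 : d 72 + d 102 = 0 := by
    linarith [(show d 12 + d 27 + d 42 + d 57 + d 72 + d 87 + d 102 = 0 from h7 12),
      z12, z27, z42, z57, z87]
  have z2 : d 2 = 0 := by
    linarith [e17_52, e2_17, e2_72, e52_73, e58_73, e58_93, e72_93]
  have z72 : d 72 = 0 := by linarith [e2_72, z2]
  have z65 : d 65 = 0 := by linarith [e2_65, z2]
  have z17 : d 17 = 0 := by linarith [e2_17, z2]
  have z93 : d 93 = 0 := by linarith [e72_93, z72]
  have z102 : d 102 = 0 := by linarith [e72_102, z72]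
  have z100 : d 100 = 0 := by linarith [e65_100, z65]
  have z95 : d 95 = 0 := by linarith [e65_95, z65]
  have z52 : d 52 = 0 := by linarith [e17_52, z17]
  have z38 : d 38 = 0 := by linarith [e17_38, z17]
  have z58 : d 58 = 0 := by linarith [e58_93, z93]
  have z18 : d 18 = 0 := by linarith [e18_93, z93]
  have z67 : d 67 = 0 := by linarith [e67_102, z102]
  have z25 : d 25 = 0 := by linarith [e25_100, z100]
  have z53 : d 53 = 0 := by linarith [e53_95, z95]
  have z73 : d 73 = 0 := by linarith [e52_73, z52]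
  intro r hr
  interval_cases r
  · exact z0
  · exact z1
  · exact z2
  · exact z3
  · exact z4
  · exact z5
  · exact z6
  · exact z7
  · exact z8
  · exact z9
  · exact z10
  · exact z11
  · exact z12
  · exact z13
  · exact z14
  · exact z15
  · exact z16
  · exact z17
  · exact z18
  · exact z19
  · exact z20
  · exact z21
  · exact z22
  · exact z23
  · exact z24
  · exact z25
  · exact z26
  · exact z27
  · exact z28
  · exact z29
  · exact z30
  · exact z31
  · exact z32
  · exact z33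
  · exact z34
  · exact z35
  · exact z36
  · exact z37
  · exact z38
  · exact z39
  · exact z40
  · exact z41
  · exact z42
  · exact z43
  · exact z44
  · exact z45
  · exact z46
  · exact z47
  · exact z48
  · exact z49
  · exact z50
  · exact z51
  · exact z52
  · exact z53
  · exact z54
  · exact z55
  · exact z56
  · exact z57
  · exact z58
  · exact z59
  · exact z60
  · exact z61
  · exact z62
  · exact z63
  · exact z64
  · exact z65
  · exact z66
  · exact z67
  · exact z68
  · exact z69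
  · exact z70
  · exact z71
  · exact z72
  · exact z73
  · exact z74
  · exact z75
  · exact z76
  · exact z77
  · exact z78
  · exact z79
  · exact z80
  · exact z81
  · exact z82
  · exact z83
  · exact z84
  · exact z85
  · exact z86
  · exact z87
  · exact z88
  · exact z89
  · exact z90
  · exact z91
  · exact z92
  · exact z93
  · exact z94
  · exact z95
  · exact z96
  · exact z97
  · exact z98
  · exact z99
  · exact z100
  · exact z101
  · exact z102
  · exact z103
  · exact z104

lemma G2_le : ∀ r : Fin 105, G2 r ≤ 2 := by decide +kernel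

lemma g_le (r : ℕ) : g r ≤ 1 := by
  have h := G2_le ⟨r % 105, Nat.mod_lt _ (by norm_num)⟩
  have h2 : (G2 (r % 105) : ℝ) ≤ 2 := by exact_mod_cast h
  rw [g]
  linarith

lemma mem_polar_iff (k : ℕ) (y : Fin (Nat.totient k) → ℝ) :
    y ∈ polar (cyclopolytope k) ↔ ∀ r : ℕ, r < k → L k y (X ^ r) ≤ 1 := by
  constructor
  · intro h r hr
    rw [L_X_pow]
    exact h _ (subset_convexHull ℝ _ ⟨r, hr, rfl⟩)
  · intro h x hx
    have hconv : Convex ℝ {x : Fin (Nat.totient k) → ℝ | ∑ i, x i * y i ≤ 1} := by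
      intro a ha b hb s t hs ht hst
      simp only [Set.mem_ofPred_eq] at ha hb ⊢
      have : ∑ i, (s • a + t • b) i * y i = s * ∑ i, a i * y i + t * ∑ i, b i * y i := by
        rw [mul_sum, mul_sum, ← sum_add_distrib]
        apply sum_congr rfl
        intro i _
        simp only [Pi.add_apply, Pi.smul_apply, smul_eq_mul]
        ring
      rw [this]
      nlinarith [mul_le_mul_of_nonneg_left ha hs, mul_le_mul_of_nonneg_left hb ht]
    have hsub : convexHull ℝ {v | ∃ r : ℕ, r < k ∧ v = coeffVec k r} ⊆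
        {x : Fin (Nat.totient k) → ℝ | ∑ i, x i * y i ≤ 1} := by
      apply convexHull_min _ hconv
      rintro v ⟨r, hr, rfl⟩
      exact h r hr
    exact hsub hx

lemma L_comb (k : ℕ) (y1 y2 : Fin (Nat.totient k) → ℝ) (a b : ℝ) (p : ℤ[X]) :
    L k (a • y1 + b • y2) p = a * L k y1 p + b * L k y2 p := by
  simp only [L]
  rw [mul_sum, mul_sum, ← sum_add_distrib]
  apply sum_congr rfl
  intro i _
  simp only [Pi.add_apply, Pi.smul_apply, smul_eq_mul]
  ring

lemma yv_extreme : yv ∈ Set.extremePoints ℝ (polar (cyclopolytope 105)) := by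
  rw [mem_extremePoints_iff_left]
  have hmem : yv ∈ polar (cyclopolytope 105) := by
    rw [mem_polar_iff]
    intro r _
    rw [L_yv_pow]
    exact g_le r
  refine ⟨hmem, ?_⟩
  intro y1 hy1 y2 hy2 hseg
  rw [mem_polar_iff] at hy1 hy2
  obtain ⟨a, b, ha, hb, hab, hy⟩ := hseg
  -- the difference of the two functions on ℤ/105
  have hd0 : ∀ r : ℕ, r < 105 → G2 r = 2 → L 105 y1 (X ^ r) - L 105 yv (X ^ r) = 0 := by
    intro r hr hG
    have h1 := hy1 r hr
    have h2 := hy2 r hr
    have h3 : L 105 yv (X ^ r) = a * L 105 y1 (X ^ r) + b * L 105 y2 (X ^ r) := by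
      rw [← hy, L_comb]
    have h4 : L 105 yv (X ^ r) = 1 := by
      rw [L_yv_pow, g, Nat.mod_eq_of_lt hr, hG]
      norm_num
    rw [h4] at h3 ⊢
    nlinarith
  have hline : ∀ (m n : ℕ), m ∈ Nat.properDivisors 105 → m * n = 105 → ∀ r : ℕ,
      ∑ j ∈ range n, (L 105 y1 (X ^ (r + m * j)) - L 105 yv (X ^ (r + m * j))) = 0 := by
    intro m n hm hmn r
    rw [sum_sub_distrib, L_line y1 m n hm hmn, L_line yv m n hm hmn, sub_zero]
  have huniq := unique (fun r => L 105 y1 (X ^ r) - L 105 yv (X ^ r)) hd0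
    (by
      intro r
      have := hline 35 3 (by decide) (by norm_num) r
      simp [sum_range_succ] at this
      linarith)
    (by
      intro r
      have := hline 21 5 (by decide) (by norm_num) r
      simp [sum_range_succ] at this
      linarith)
    (by
      intro r
      have := hline 15 7 (by decide) (by norm_num) r
      simp [sum_range_succ] at this
      linarith)
  funext s
  have hs : (s : ℕ) < 105 := lt_of_lt_of_le s.isLt (Nat.totient_le 105)
  have h1 := huniq s hs
  rw [L_X_pow_lt, L_X_pow_lt] at h1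
  linarith

/-- **The cyclopolytope `N_105` is not reflexive.**  The polar of `N_105` has a vertex with a
non-integral coordinate; hence it is not true that `N_k` is reflexive for all `k ≥ 2`. -/
theorem result :
    (∃ y ∈ Set.extremePoints ℝ (polar (cyclopolytope 105)), ∃ i, ∀ n : ℤ, y i ≠ (n : ℝ)) ∧
    ¬ ∀ k : ℕ, 2 ≤ k → IsReflexive (cyclopolytope k) := by
  have htot : 2 < Nat.totient 105 := by decide
  have hne : ∀ n : ℤ, yv ⟨2, htot⟩ ≠ (n : ℝ) := by
    intro n hn
    have h4 : yv ⟨2, htot⟩ = (-3 : ℝ) / 2 := by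
      show g 2 = _
      rw [g]
      norm_num [G2]
    rw [h4] at hn
    have h5 : ((2 * n : ℤ) : ℝ) = ((-3 : ℤ) : ℝ) := by
      push_cast
      linarith
    have h6 : 2 * n = -3 := by exact_mod_cast h5
    omega
  refine ⟨⟨yv, yv_extreme, ⟨2, htot⟩, hne⟩, ?_⟩
  intro h
  obtain ⟨_, _, h3⟩ := h 105 (by norm_num)
  obtain ⟨n, hn⟩ := h3 yv yv_extreme ⟨2, htot⟩
  exact hne n hn

end Pool.Agent.Results.MP_c80912_nt.NotReflexive105
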